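import Pool.Agent.H.MP_670a4f_lc.St.Types
import Pool.Agent.H.MP_670a4f_lc.St.Comb
import Pool.Agent.H.MP_670a4f_lc.Rect

/-!
# MP_670a4f_lc, Q/Code: strong form of the rectangle colouring, and the construction of pairs of
points with an alternation of the ladders and prescribed codes
-/

set_option autoImplicit false

namespace Pool.Agent.H.MP_670a4f_lc.Q

open Set Pool.Agent.H.MP_670a4f_lc.St

/-- unbounded sets of countable ordinals -/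
def Ub (A : Set Om) : Prop := ∀ γ : Om, ∃ α ∈ A, γ < α

theorem Ub.uncountable {A : Set Om} (h : Ub A) : ¬ A.Countable := by
  intro hc
  obtain ⟨b, hb⟩ := om_bdd hc
  obtain ⟨a, ha, hba⟩ := h b
  exact lt_asymm hba (hb a ha)

/-- the strong form of the rectangle property -/
def Strong (o : Om → Om → ℕ) : Prop :=
  ∀ A : Set Om, Ub A → ∀ j : ℕ, ∃ ν : Om, ∀ b, ν ≤ b → ∃ a ∈ A, a < ν ∧ o a b = j

theorem exists_strong : ∃ o, Strong o := by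
  obtain ⟨o, ho⟩ := exists_rect (W := Om) om_countable
  refine ⟨o, ?_⟩
  intro A hA j
  by_contra hcon
  push Not at hcon
  choose g hg1 hg2 using hcon
  choose h hhA hhlt using hA
  have hC : IsClub {x : Om | ∀ a, a < x → x ∈ Ioi (h (g a))} := club_diag (fun a => club_Ioi _)
  obtain ⟨C, hCdef⟩ : ∃ C : Set Om, C = {x : Om | ∀ a, a < x → x ∈ Ioi (h (g a))} := ⟨_, rfl⟩
  rw [← hCdef] at hC
  have hCm : ∀ ν ∈ C, ∀ a, a < ν → h (g a) < ν := by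
    intro ν hν a ha
    rw [hCdef] at hν
    exact hν a ha
  have hA' : Ub {a : Om | a ∈ A ∧ ∀ ν ∈ C, ν ≤ a → g ν < a} := by
    intro γ
    obtain ⟨ν, hν, hγ⟩ := club_mem_gt hC γ
    refine ⟨h (g ν), ⟨hhA _, ?_⟩, lt_of_lt_of_le hγ (le_trans (hg1 ν) (hhlt _).le)⟩
    intro ν' hν' hle
    rcases lt_trichotomy ν' ν with h1 | h1 | h1
    · exact lt_trans (hhlt _) (lt_of_lt_of_le (hCm ν hν ν' h1) (le_trans (hg1 ν) (hhlt _).le))
    · rw [h1]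
      exact hhlt _
    · exact absurd hle (not_le.2 (hCm ν' hν' ν h1))
  have hB : Ub {b : Om | ∃ ν ∈ C, b = g ν} := by
    intro γ
    obtain ⟨ν, hν, hγ⟩ := club_mem_gt hC γ
    exact ⟨g ν, ⟨ν, hν, rfl⟩, lt_of_lt_of_le hγ (hg1 ν)⟩
  obtain ⟨a, ha, b, ⟨ν, hν, rfl⟩, hab, hj⟩ := ho _ _ hA'.uncountable hB.uncountable j
  have h1 : a < ν := by
    by_contra hc
    exact lt_asymm hab (ha.2 ν hν (not_lt.1 hc))
  exact hg2 ν a ha.1 h1 hj

theorem Typ.mono {L : Om → ℕ → Om} : ∀ {s : List ℕ} {Y Y' : Set Om}, Typ L s Y → Y ⊆ Y' →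
    Typ L s Y'
  | [], _, _, h, hY => IsStationary.mono h hY
  | _ :: _, _, _, ⟨Z, hZ, h1, h2⟩, hY => ⟨Z, hZ.trans hY, h1, h2⟩

theorem Typ.stat {L : Om → ℕ → Om} : ∀ {s : List ℕ} {Y : Set Om}, Typ L s Y → IsStationary Y
  | [], _, h => h
  | _ :: s, _, ⟨Z, hZ, _, h2⟩ => by
    obtain ⟨α, _, h3⟩ := h2 (Classical.arbitrary Om)
    exact (Typ.stat h3).mono (fun x hx => hZ hx.1)

/-- the sets without a given type form a countably complete ideal -/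
theorem Typ.cover {L : Om → ℕ → Om} {ι : Type*} [Countable ι] : ∀ {s : List ℕ} {Y : Set Om}
    {F : ι → Set Om}, Typ L s Y → Y ⊆ ⋃ i, F i → ∃ i, Typ L s (F i)
  | [], _, _, h, hF => stat_cover h hF
  | m :: s, Y, F, ⟨Z, hZ, h1, h2⟩, hF => by
    have h3 : ∀ γ : Om, ∃ α, γ < α ∧ ∃ i : ι, Typ L s {x | x ∈ (Z ∩ F i) ∧ L x m = α} := by
      intro γ
      obtain ⟨α, hα, h4⟩ := h2 γ
      obtain ⟨i, hi⟩ := Typ.cover (F := fun i => {x | x ∈ (Z ∩ F i) ∧ L x m = α}) h4 (by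
        intro x hx
        obtain ⟨i, hi⟩ := mem_iUnion.1 (hF (hZ hx.1))
        exact mem_iUnion.2 ⟨i, ⟨hx.1, hi⟩, hx.2⟩)
      exact ⟨α, hα, i, hi⟩
    obtain ⟨i, hi⟩ := pigeon h3
    exact ⟨i, Z ∩ F i, inter_subset_right, h1.mono inter_subset_left, hi⟩

/-- one code -/
theorem Typ.code {L : Om → ℕ → Om} {o : Om → Om → ℕ} (ho : Strong o) {s : List ℕ} {Y : Set Om}
    (hY : Typ L s Y) {A : Set Om} (hA : Ub A) (j : ℕ) :
    ∃ a ∈ A, Typ L s {y | y ∈ Y ∧ a < y ∧ o a y = j} := by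
  obtain ⟨ν, hν⟩ := ho A hA j
  have hcount : Countable (Iio ν) := (om_countable ν).to_subtype
  obtain ⟨i, hi⟩ := Typ.cover (ι := Option (Iio ν)) (F := fun i => match i with
      | none => {y | y ∈ Y ∧ y < ν}
      | some a => {y | y ∈ Y ∧ a.1 ∈ A ∧ a.1 < y ∧ o a.1 y = j}) hY (by
    intro y hy
    rcases lt_or_ge y ν with h | h
    · exact mem_iUnion.2 ⟨none, hy, h⟩
    · obtain ⟨a, ha, haν, hj⟩ := hν y h
      exact mem_iUnion.2 ⟨some ⟨a, haν⟩, hy, ha, lt_of_lt_of_le haν h, hj⟩)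
  cases i with
  | none =>
    obtain ⟨x, hx, hνx⟩ := stat_gt (Typ.stat hi) ν
    exact absurd hνx (lt_asymm hx.2)
  | some a =>
    obtain ⟨x, hx⟩ := hi.nonempty
    exact ⟨a.1, hx.2.1, Typ.mono hi (fun y hy => ⟨hy.1, hy.2.2.1, hy.2.2.2⟩)⟩

/-- pairs with an alternation of the ladders and prescribed codes -/
theorem pair_exists {L : Om → ℕ → Om} (hL : Ladder L) {o1 o2 o3 : Om → Om → ℕ} (h1 : Strong o1)
    (h2 : Strong o2) (h3 : Strong o3) {S : Set Om} (hS : IsStationary S) (hSL : S ⊆ Lm)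
    (j1 j2 j3 : ℕ) (u : Om → Om) :
    ∃ x ∈ S, ∃ y ∈ S, ∃ (p : ℕ) (q : ℕ → ℕ), W (L x) (L y) x p 2 q ∧ x < y ∧ u x < y ∧
      o1 x y = j1 ∧ o2 (L y p) x = j2 ∧ o3 (L x p) y = j3 := by
  obtain ⟨s, hs, hT⟩ := typ_exists hL 4 S hS hSL
  obtain ⟨b, a, c, d, rfl⟩ : ∃ b a c d, s = [b, a, c, d] := by
    match s, hs with
    | [b, a, c, d], _ => exact ⟨b, a, c, d, rfl⟩
  obtain ⟨Z, hZ, hA, hU⟩ := hT
  have hA1 : Ub {ξ | Typ L [a, c, d] {x | x ∈ Z ∧ L x b = ξ}} := fun γ => by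
    obtain ⟨α, h4, h5⟩ := hU γ
    exact ⟨α, h5, h4⟩
  obtain ⟨ξ, hξ, hY0⟩ := Typ.code h3 (s := [b, a, c, d]) ⟨Z, Subset.rfl, hA, hU⟩ hA1 j3
  obtain ⟨Y, hY, hYA, hYU⟩ := hY0
  have hξ' : Typ L [a, c, d] {x | x ∈ Z ∧ L x b = ξ} := hξ
  obtain ⟨X1, hX1, hX1A, hX1U⟩ := hξ'
  -- the index `b` is below `a`
  obtain ⟨_, _, _, _, _, _, hba, _⟩ := Sp.next (h := (⟨hA, hU⟩ : Sp L Z b (a :: [c, d])))
    (Classical.arbitrary Om)
  obtain ⟨ηa, X2, _, hX2, hX2a, hSX2, hac, x0, hx0⟩ :=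
    Sp.next (h := (⟨hX1A, hX1U⟩ : Sp L X1 a (c :: [d]))) (Classical.arbitrary Om)
  have hA2 : Ub {η | Typ L [a, c, d] {y | y ∈ Y ∧ L y b = η} ∧ L x0 (c - 1) < η} := fun γ => by
    obtain ⟨α, h4, h5⟩ := hYU (max γ (L x0 (c - 1)))
    exact ⟨α, ⟨h5, lt_of_le_of_lt (le_max_right _ _) h4⟩, lt_of_le_of_lt (le_max_left _ _) h4⟩
  obtain ⟨η, ⟨hη, hη2⟩, hX30⟩ := Typ.code h2 (s := [c, d]) ⟨X2, Subset.rfl, hSX2.1, hSX2.2⟩ hA2 j2
  obtain ⟨X3, hX3, hX3A, hX3U⟩ := hX30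
  obtain ⟨Y2, hY2, hY2A, hY2U⟩ := hη
  obtain ⟨y1, hy1⟩ : Y2.Nonempty := by
    obtain ⟨α, _, h5⟩ := hY2U (Classical.arbitrary Om)
    obtain ⟨y, hy⟩ := h5.nonempty
    exact ⟨y, hy.1⟩
  obtain ⟨θ, X4, hθ, hX4, hX4c, hSX4, hcd, x1, hx1⟩ :=
    Sp.next (h := (⟨hX3A, hX3U⟩ : Sp L X3 c (d :: []))) (L y1 (a - 1))
  obtain ⟨φ, Y3, hφ, hY3, hY3a, hSY3, _, y2, hy2⟩ :=
    Sp.next (h := (⟨hY2A, hY2U⟩ : Sp L Y2 a (c :: [d]))) (L x1 (d - 1))
  obtain ⟨ψ, hψ, hX5⟩ := hSX4.2 (L y2 (c - 1))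
  have hX5s : IsStationary {x | x ∈ X4 ∧ L x d = ψ} := Typ.stat hX5
  obtain ⟨ν, hν⟩ := h1 {x | x ∈ X4 ∧ L x d = ψ} (fun γ => by
    obtain ⟨x, hx, h5⟩ := stat_gt hX5s γ
    exact ⟨x, hx, h5⟩) j1
  obtain ⟨ν', hν'⟩ := om_bdd ((om_countable ν).image u)
  obtain ⟨ω, hω, hYf⟩ := hSY3.2 (max ν ν')
  obtain ⟨y, hy, hyc⟩ := hYf.nonempty
  have hyY2 : y ∈ Y2 := hY3 hy
  have hyY : y ∈ Y := (hY2 hyY2).1
  have hyZ : y ∈ Z := (hY hyY).1
  have hyS : y ∈ S := hZ hyZ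
  have hyL := hSL hyS
  have hωy : ω < y := by rw [← hyc]; exact hL.lt y hyL c
  have hνy : ν ≤ y := (lt_of_le_of_lt (le_max_left ν ν') (lt_trans hω hωy)).le
  obtain ⟨x, ⟨hx, hxd⟩, hxν, hxy1⟩ := hν y hνy
  have hxX3 : x ∈ X3 := hX4 hx
  have hxX2 : x ∈ X2 := (hX3 hxX3).1
  have hxX1 : x ∈ X1 := hX2 hxX2
  have hxZ : x ∈ Z := (hX1 hxX1).1
  have hxS : x ∈ S := hZ hxZ
  have hxb : L x b = ξ := (hX1 hxX1).2
  have hyb : L y b = η := (hY2 hyY2).2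
  have hxy : x < y := lt_of_lt_of_le hxν hνy
  refine ⟨x, hxS, y, hyS, b, fun j => if j = 0 then b else if j = 1 then a else if j = 2 then c
    else d + (j - 3), ?_, hxy, ?_, hxy1, ?_, ?_⟩
  · constructor
    · simp
    · intro j hj
      have hj' : j = 0 ∨ j = 1 ∨ j = 2 := by omega
      rcases hj' with h | h | h
      · subst h; simpa using hba
      · subst h; simpa using hac
      · subst h; simpa using hcd
    · intro i hi
      exact hA x hxZ y hyZ i hi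
    · intro j hj
      have hj' : j = 0 ∨ j = 1 := by omega
      rcases hj' with h | h
      · subst h
        show L x (c - 1) < L y b
        rw [hyb, hSX2.1 x hxX2 x0 hx0 (c - 1) (by omega)]
        exact hη2
      · subst h
        show L x (d + (3 - 3) - 1) < L y a
        rw [Nat.sub_self, Nat.add_zero, hY3a y hy, hSX4.1 x hx x1 hx1 (d - 1) (by omega)]
        exact hφ
    · intro j hj
      have hj' : j = 0 ∨ j = 1 := by omega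
      rcases hj' with h | h
      · subst h
        show L y (a - 1) < L x c
        rw [hX4c x hx, hY2A y hyY2 y1 hy1 (a - 1) (by omega)]
        exact hθ
      · subst h
        show L y (c - 1) < L x (d + (3 - 3))
        rw [Nat.sub_self, Nat.add_zero, hxd, hSY3.1 y hy y2 hy2 (c - 1) (by omega)]
        exact hψ
    · show x ≤ L y c
      rw [hyc]
      exact (lt_trans hxν (lt_of_le_of_lt (le_max_left ν ν') hω)).le
  · exact lt_trans (hν' (u x) ⟨x, hxν, rfl⟩) (lt_of_le_of_lt (le_max_right ν ν') (lt_trans hω hωy))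
  · rw [hyb]
    exact (hX3 hxX3).2.2
  · rw [hxb]
    exact (hY hyY).2.2

end Pool.Agent.H.MP_670a4f_lc.Q
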