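import Pool.Agent.H.MP_670a4f_lc.Q.Occ

/-!
# MP_670a4f_lc, Q/Colour: the colouring
-/

set_option autoImplicit false

namespace Pool.Agent.H.MP_670a4f_lc.Q

open Set Pool.Agent.H.MP_670a4f_lc.St

/-- the colour `m` is good for the pair -/
def Gd (D : Dat) (α β : Om) (m : ℕ) : Prop :=
  E D m α β ∧ m ∉ range (lam D.r α) ∧ m ∉ range (lam D.r β)

/-- the colour of the pair `α < β` -/
noncomputable def col (D : Dat) (e : Om → Om → ℕ) (α β : Om) : ℕ :=
  open Classical in
  if h : ∃ m, Gd D α β m then Nat.find h else lam D.r β (e β α)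

theorem col_cases (D : Dat) (e : Om → Om → ℕ) (α β : Om) :
    Gd D α β (col D e α β) ∨ col D e α β = lam D.r β (e β α) := by
  classical
  by_cases h : ∃ m, Gd D α β m
  · left
    have h1 : col D e α β = Nat.find h := by
      unfold col
      rw [dif_pos h]
    rw [h1]
    exact Nat.find_spec h
  · right
    unfold col
    rw [dif_neg h]

theorem col_eq (D : Dat) (e : Om → Om → ℕ) {α β : Om} {n : ℕ} (h1 : Gd D α β n)
    (h2 : ∀ m, m < n → ¬ E D m α β) : col D e α β = n := by
  classical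
  have h : ∃ m, Gd D α β m := ⟨n, h1⟩
  have h3 : col D e α β = Nat.find h := by
    unfold col
    rw [dif_pos h]
  rw [h3]
  apply le_antisymm
  · exact Nat.find_min' h h1
  · exact not_lt.1 fun h4 => h2 _ h4 (Nat.find_spec h).1

/-- no monochromatic triangle -/
theorem col_triangle {D : Dat} (hF : Tr D.F) (hL : Ladder D.L) {e : Om → Om → ℕ}
    (he : ∀ y a b, a < y → b < y → e y a = e y b → a = b) {a b c : Om} (hab : a < b) (hbc : b < c)
    (h1 : col D e a b = col D e b c) (h2 : col D e b c = col D e a c) : False := by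
  rcases col_cases D e b c with hb | hb
  · rcases col_cases D e a c with hc | hc
    · rcases col_cases D e a b with ha | ha
      · rw [h1] at ha
        rw [← h2] at hc
        exact E_triangle hF hL ha.1 hb.1 hc.1
      · apply hb.2.1
        rw [← h1, ha]
        exact ⟨_, rfl⟩
    · apply hb.2.2
      rw [h2, hc]
      exact ⟨_, rfl⟩
  · rcases col_cases D e a c with hc | hc
    · apply hc.2.2
      rw [← h2, hb]
      exact ⟨_, rfl⟩
    · have h3 : lam D.r c (e c b) = lam D.r c (e c a) := by rw [← hb, ← hc]; exact h2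
      exact absurd (he c a b (lt_trans hab hbc) hbc (lam_inj D.r c h3.symm)) hab.ne

/-- the main theorem, for functions on increasing pairs -/
theorem main : ∃ g : Om → Om → ℕ,
    (∀ a b c, a < b → b < c → ¬ (g a b = g b c ∧ g b c = g a c)) ∧
    ∀ X : Set Om, ¬ X.Countable → ∃ N : ℕ, ∀ n, N ≤ n → ∃ x ∈ X, ∃ y ∈ X, x < y ∧ g x y = n := by
  obtain ⟨F, hF⟩ := exists_tree
  obtain ⟨L, hL⟩ := exists_ladders
  obtain ⟨r, hr⟩ := om_real
  obtain ⟨o, ho⟩ := exists_strong
  obtain ⟨e, he⟩ := exists_e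
  let D : Dat := ⟨F, L, r, o, o, o⟩
  refine ⟨col D e, ?_, ?_⟩
  · intro a b c hab hbc h
    exact col_triangle (D := D) hF hL he hab hbc h.1 h.2
  · intro X hX
    obtain ⟨N, hN⟩ := occ (D := D) hF hL hr ho ho ho hX
    refine ⟨N, ?_⟩
    intro n hn
    obtain ⟨x, hx, y, hy, hxy, h1, h2, h3, h4⟩ := hN n hn
    exact ⟨x, hx, y, hy, hxy, col_eq D e ⟨h1, h2, h3⟩ h4⟩

end Pool.Agent.H.MP_670a4f_lc.Q
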