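import Pool.Agent.H.MP_670a4f_lc.Q.Tree
import Pool.Agent.H.MP_670a4f_lc.St.Colour

/-!
# MP_670a4f_lc, Q/Graph: the graphs, and why they have no triangles
-/

set_option autoImplicit false

namespace Pool.Agent.H.MP_670a4f_lc.Q

open Set Pool.Agent.H.MP_670a4f_lc.St

/-- the data: trees, ladders, reals, codes -/
structure Dat where
  F : ℕ → Om → Set Om
  L : Om → ℕ → Om
  r : Om → ℕ → Bool
  o1 : Om → Om → ℕ
  o2 : Om → Om → ℕ
  o3 : Om → Om → ℕ

/-- the first code -/
def cd (D : Dat) (m : ℕ) (α β : Om) : ℕ := Nat.pair m (Nat.pair (lam D.r α m) (lam D.r β m))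

/-- an edge of the graph with the number `m`, with its nodes `x`, `y` and the first difference
`p` of the ladders of the nodes -/
structure Ed (D : Dat) (m : ℕ) (α β x y : Om) (p : ℕ) : Prop where
  lt : α < β
  sub : ∀ ξ ∈ D.F m β, ξ ≤ α → ξ ∈ D.F m α
  nmem : α ∉ D.F m β
  ne : lam D.r α m ≠ lam D.r β m
  x_mem : x ∈ D.F m α
  x_nmem : x ∉ D.F m β
  x_min : ∀ ξ ∈ D.F m α, ξ < x → ξ ∈ D.F m β
  y_mem : y ∈ D.F m β
  y_gt : α < y
  y_min : ∀ ξ ∈ D.F m β, ξ < y → ξ ≤ α
  xL : x ∈ Lm
  yL : y ∈ Lm
  w : ∃ q, W (D.L x) (D.L y) x p 2 q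
  c1 : D.o1 x y = cd D m α β
  c2 : D.o2 (D.L y p) x = lam D.r β m
  c3 : D.o3 (D.L x p) y = lam D.r α m

def E (D : Dat) (m : ℕ) (α β : Om) : Prop := ∃ x y p, Ed D m α β x y p

theorem cd_fst {D : Dat} {m m' : ℕ} {α β α' β' : Om} (h : cd D m α β = cd D m' α' β') :
    m = m' := by
  have := congrArg (fun t => (Nat.unpair t).1) h
  simpa [cd] using this

theorem cd_l {D : Dat} {m m' : ℕ} {α β α' β' : Om} (h : cd D m α β = cd D m' α' β') :
    lam D.r α m = lam D.r α' m' := by
  have := congrArg (fun t => (Nat.unpair (Nat.unpair t).2).1) h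
  simpa [cd] using this

theorem cd_r {D : Dat} {m m' : ℕ} {α β α' β' : Om} (h : cd D m α β = cd D m' α' β') :
    lam D.r β m = lam D.r β' m' := by
  have := congrArg (fun t => (Nat.unpair (Nat.unpair t).2).2) h
  simpa [cd] using this

theorem E_triangle {D : Dat} (hF : Tr D.F) (hL : Ladder D.L) {m : ℕ} {α β γ : Om}
    (h12 : E D m α β) (h23 : E D m β γ) (h13 : E D m α γ) : False := by
  obtain ⟨x1, y1, p1, e12⟩ := h12
  obtain ⟨x2, z2, p2, e13⟩ := h13
  obtain ⟨y3, z3, p3, e23⟩ := h23
  by_cases hII : ∃ η ∈ D.F m β, η ∈ D.F m γ ∧ α < η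
  · -- the points `β`, `γ` have a common node above `α`
    obtain ⟨η, hηβ, hηγ, hη⟩ := hII
    have hy1η : y1 ≤ η := not_lt.1 fun h => absurd (e12.y_min η hηβ h) (not_le.2 hη)
    have hz2η : z2 ≤ η := not_lt.1 fun h => absurd (e13.y_min η hηγ h) (not_le.2 hη)
    have hy1γ : y1 ∈ D.F m γ :=
      (hF.coh m γ η hηγ y1 hy1η).1 ((hF.coh m β η hηβ y1 hy1η).2 e12.y_mem)
    have hz2β : z2 ∈ D.F m β :=
      (hF.coh m β η hηβ z2 hz2η).1 ((hF.coh m γ η hηγ z2 hz2η).2 e13.y_mem)
    have hyz : y1 = z2 := by
      apply le_antisymm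
      · exact not_lt.1 fun h => absurd (e12.y_min z2 hz2β h) (not_le.2 e13.y_gt)
      · exact not_lt.1 fun h => absurd (e13.y_min y1 hy1γ h) (not_le.2 e12.y_gt)
    have hiff : ∀ ξ, ξ ≤ α → (ξ ∈ D.F m β ↔ ξ ∈ D.F m γ) := by
      intro ξ hξ
      have h1 : ξ ≤ η := le_trans hξ hη.le
      rw [← hF.coh m β η hηβ ξ h1, hF.coh m γ η hηγ ξ h1]
    have hxx : x1 = x2 := by
      apply le_antisymm
      · refine not_lt.1 fun h => ?_
        have h1 := e12.x_min x2 e13.x_mem h
        exact e13.x_nmem ((hiff x2 (hF.le _ _ _ e13.x_mem)).1 h1)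
      · refine not_lt.1 fun h => ?_
        have h1 := e13.x_min x1 e12.x_mem h
        exact e12.x_nmem ((hiff x1 (hF.le _ _ _ e12.x_mem)).2 h1)
    have h1 := e12.c1
    rw [hxx, hyz, e13.c1] at h1
    exact e23.ne (cd_r h1).symm
  · push Not at hII
    have hzz : z2 = z3 := by
      apply le_antisymm
      · exact not_lt.1 fun h => absurd (e13.y_min z3 e23.y_mem h)
          (not_le.2 (lt_trans e12.lt e23.y_gt))
      · refine not_lt.1 fun h => ?_
        have h1 := e23.y_min z2 e13.y_mem h
        have h2 := e23.sub z2 e13.y_mem h1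
        exact absurd (hII z2 h2 e13.y_mem) (not_le.2 e13.y_gt)
    by_cases hI : ∃ ε ∈ D.F m α, ε ∈ D.F m β ∧ ε ∉ D.F m γ
    · -- the points `α`, `β` have a common node that is not a node of `γ`
      obtain ⟨ε, hεα, hεβ, hεγ⟩ := hI
      have hx2ε : x2 ≤ ε := not_lt.1 fun h => hεγ (e13.x_min ε hεα h)
      have hy3ε : y3 ≤ ε := not_lt.1 fun h => hεγ (e23.x_min ε hεβ h)
      have hx2β : x2 ∈ D.F m β :=
        (hF.coh m β ε hεβ x2 hx2ε).1 ((hF.coh m α ε hεα x2 hx2ε).2 e13.x_mem)
      have hy3α : y3 ∈ D.F m α :=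
        (hF.coh m α ε hεα y3 hy3ε).1 ((hF.coh m β ε hεβ y3 hy3ε).2 e23.x_mem)
      have hxy : x2 = y3 := by
        apply le_antisymm
        · exact not_lt.1 fun h => e23.x_nmem (e13.x_min y3 hy3α h)
        · exact not_lt.1 fun h => e13.x_nmem (e23.x_min x2 hx2β h)
      have h1 := e13.c1
      rw [hxy, hzz, e23.c1] at h1
      exact e12.ne (cd_l h1).symm
    · push Not at hI
      have hx1γ : x1 ∉ D.F m γ := fun h =>
        e12.x_nmem (e23.sub x1 h (le_trans (hF.le _ _ _ e12.x_mem) e12.lt.le))
      have hxx : x1 = x2 := by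
        apply le_antisymm
        · refine not_lt.1 fun h => ?_
          exact e13.x_nmem (hI x2 e13.x_mem (e12.x_min x2 e13.x_mem h))
        · exact not_lt.1 fun h => hx1γ (e13.x_min x1 e12.x_mem h)
      have hyy : y1 = y3 := by
        apply le_antisymm
        · refine not_lt.1 fun h => ?_
          have h1 := e12.y_min y3 e23.x_mem h
          have h2 := e12.sub y3 e23.x_mem h1
          exact e23.x_nmem (hI y3 h2 e23.x_mem)
        · refine not_lt.1 fun h => ?_
          have h1 := e23.x_min y1 e12.y_mem h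
          exact absurd (hII y1 e12.y_mem h1) (not_le.2 e12.y_gt)
      subst hxx
      subst hyy
      subst hzz
      obtain ⟨q1, w1⟩ := e12.w
      obtain ⟨q2, w2⟩ := e13.w
      obtain ⟨q3, w3⟩ := e23.w
      have ux := hL.mono x1 e12.xL
      have uy := hL.mono y1 e12.yL
      have uz := hL.mono z2 e13.yL
      have l1 := w1.lt_m ux (by omega)
      have l2 := w2.lt_m ux (by omega)
      have l3 := w3.lt_m uy (by omega)
      have hxy : x1 < y1 := lt_of_le_of_lt (hF.le _ _ _ e12.x_mem) e12.y_gt
      rcases lt_trichotomy p1 p3 with h | h | h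
      · -- the ladders of `y` and `z` agree beyond the first difference with `x`
        have e : p2 = p1 := by
          rcases lt_trichotomy p2 p1 with h' | h' | h'
          · have i1 := w1.hag p2 h'
            have i2 := w3.hag p2 (by omega)
            rw [i1, i2] at l2
            exact absurd l2 (lt_irrefl _)
          · exact h'
          · have i1 := w2.hag p1 h'
            have i2 := w3.hag p1 h
            rw [i1, i2] at l1
            exact absurd l1 (lt_irrefl _)
        subst e
        have h1 := e12.c2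
        rw [w3.hag p2 h, e13.c2] at h1
        exact e23.ne h1.symm
      · -- all first differences agree
        subst h
        have e : p2 = p1 := by
          rcases lt_trichotomy p2 p1 with h' | h' | h'
          · have i1 := w1.hag p2 h'
            have i2 := w3.hag p2 h'
            rw [i1, i2] at l2
            exact absurd l2 (lt_irrefl _)
          · exact h'
          · have i1 := w2.hag p1 h'
            rw [i1] at l1
            exact absurd l1 (lt_asymm l3)
        subst e
        exact caseA ux uy uz (hL.lt x1 e12.xL) hxy (w3.le_all uy uz (hL.lt y1 e12.yL))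
          (d := 0) (k := 1) (by omega) w1 w3 w2
      · -- the ladders of `x` and `y` agree beyond the first difference with `z`
        have e : p2 = p3 := by
          rcases lt_trichotomy p2 p3 with h' | h' | h'
          · have i1 := w1.hag p2 (by omega)
            have i2 := w3.hag p2 h'
            rw [i1, i2] at l2
            exact absurd l2 (lt_irrefl _)
          · exact h'
          · have i1 := w2.hag p3 h'
            have i2 := w1.hag p3 h
            rw [← i1, ← i2] at l3
            exact absurd l3 (lt_irrefl _)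
        subst e
        have h1 := e13.c3
        rw [w1.hag p2 h, e23.c3] at h1
        exact e12.ne h1.symm

end Pool.Agent.H.MP_670a4f_lc.Q
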