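import Pool.Agent.H.MP_670a4f_lc.Q.Types
import Pool.Agent.H.MP_670a4f_lc.Q.Code

/-!
# MP_670a4f_lc, Q/Occ: every uncountable set contains edges of almost all numbers
-/

set_option autoImplicit false

namespace Pool.Agent.H.MP_670a4f_lc.Q

open Set Pool.Agent.H.MP_670a4f_lc.St

/-- levels below the rank: the edges are excluded by the ladders of the nodes -/
theorem low {D : Dat} (hF : Tr D.F) (hL : Ladder D.L) {nd : ℕ → Om → Om → Om}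
    (hnd : NdSpec D.F nd) {x y α β : Om} {m j : ℕ} (hm : m < j) (hx : x < α) (hxy : x < y)
    (hy : y < β) (hαy : α < y) (rx : rk D.F x α = j) (ry : rk D.F y β = j)
    (ht : Tp D.F D.L nd x α j = Tp D.F D.L nd y β j) : ¬ E D m α β := by
  rintro ⟨x', y', p, e⟩
  have hxn : x ∉ D.F m α := fun h => by
    have := (rk_le hF hx.le).1 h
    omega
  have hyn : y ∉ D.F m β := fun h => by
    have := (rk_le hF hy.le).1 h
    omega
  have m1 : ∀ ξ, (ξ < x ∧ ξ ∈ D.F m α) ↔ (ξ < y ∧ ξ ∈ D.F m β) := by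
    intro ξ
    rw [← Tp_even (L := D.L) (nd := nd) hm ξ, ← Tp_even (L := D.L) (nd := nd) hm ξ, ht]
  have hxx' : x < x' := by
    rcases lt_trichotomy x x' with h | h | h
    · exact h
    · exact absurd e.x_mem (by rw [← h]; exact hxn)
    · exact absurd ((m1 x').1 ⟨h, e.x_mem⟩).2 e.x_nmem
  have hyy' : y < y' := by
    rcases lt_trichotomy y y' with h | h | h
    · exact h
    · exact absurd e.y_mem (by rw [← h]; exact hyn)
    · exact absurd (lt_trans ((m1 y').2 ⟨h, e.y_mem⟩).1 hx) (lt_asymm e.y_gt)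
  have e1 : nd m x α = x' := by
    refine nd_eq hnd hx e.x_mem hxx' ?_
    intro ξ hξ hxξ
    refine not_lt.1 fun h => ?_
    have h1 := e.x_min ξ hξ h
    have h2 : ξ < y := lt_of_le_of_lt (hF.le _ _ _ hξ) hαy
    exact lt_asymm hxξ ((m1 ξ).2 ⟨h2, h1⟩).1
  have e2 : nd m y β = y' := by
    refine nd_eq hnd hy e.y_mem hyy' ?_
    intro ξ hξ hyξ
    refine not_lt.1 fun h => ?_
    exact absurd (lt_trans hαy hyξ) (not_lt.2 (e.y_min ξ hξ h))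
  have m2 : ∀ ξ, (ξ < x ∧ ∃ i, ξ = D.L x' i) ↔ (ξ < y ∧ ∃ i, ξ = D.L y' i) := by
    intro ξ
    have h1 := Tp_odd (F := D.F) (L := D.L) (nd := nd) (δ := x) (β := α) hm ξ
    have h2 := Tp_odd (F := D.F) (L := D.L) (nd := nd) (δ := y) (β := β) hm ξ
    rw [ht, h2, e1, e2] at h1
    constructor
    · rintro ⟨a1, a2⟩
      have a3 := h1.2 ⟨a1, e.xL, a2⟩
      exact ⟨a3.1, a3.2.2⟩
    · rintro ⟨a1, a2⟩
      have a3 := h1.1 ⟨a1, e.yL, a2⟩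
      exact ⟨a3.1, a3.2.2⟩
  obtain ⟨q, w⟩ := e.w
  have ux := hL.mono x' e.xL
  have uy := hL.mono y' e.yL
  have l1 := w.lt_m ux (by omega)
  have h1 := w.hB 0 (by omega)
  have h2 := w.hq 0 (by omega)
  have h3 := w.h0
  have h4 : D.L y' p ≤ D.L y' (q (0 + 1) - 1) := uy.monotone (by omega)
  have h5 : D.L x' (q (0 + 2)) < x' := hL.lt x' e.xL _
  have h6 : D.L y' p < y := lt_of_le_of_lt h4 (lt_trans h1 (lt_trans h5
    (lt_of_le_of_lt (hF.le _ _ _ e.x_mem) hαy)))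
  have h7 := (m2 (D.L y' p)).2 ⟨h6, p, rfl⟩
  obtain ⟨_, i, hi⟩ := (m2 (D.L x' p)).1 ⟨lt_trans l1 h7.1, p, rfl⟩
  have h8 : i < p := by
    rw [hi] at l1
    exact uy.lt_iff_lt.1 l1
  have h9 := w.hag i h8
  rw [← hi] at h9
  have h10 := ux.injective h9
  omega

/-- levels above the rank: the nodes are `x` and `y` -/
theorem high {D : Dat} (hF : Tr D.F) {x y α β : Om} {m : ℕ} (hx : x ∈ D.F m α)
    (hy : y ∈ D.F m β) (hxy : x < y) (hαy : α < y)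
    (hR : ∀ ξ, (ξ < x ∧ ξ ∈ D.F m x) ↔ (ξ < y ∧ ξ ∈ D.F m y)) :
    (∀ ξ ∈ D.F m β, ξ < y → ξ < x ∧ ξ ∈ D.F m α) ∧ (∀ ξ ∈ D.F m α, ξ < x → ξ ∈ D.F m β) ∧
      x ∉ D.F m β := by
  have n1 : ∀ ξ ∈ D.F m β, ξ < y → ξ < x ∧ ξ ∈ D.F m α := by
    intro ξ hξ hlt
    have h1 := (hR ξ).2 ⟨hlt, (hF.coh m β y hy ξ hlt.le).2 hξ⟩
    exact ⟨h1.1, (hF.coh m α x hx ξ h1.1.le).1 h1.2⟩
  refine ⟨n1, ?_, ?_⟩
  · intro ξ hξ hlt
    have h1 := (hR ξ).1 ⟨hlt, (hF.coh m α x hx ξ hlt.le).2 hξ⟩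
    exact (hF.coh m β y hy ξ h1.1.le).1 h1.2
  · intro h
    exact lt_irrefl _ (n1 x h hxy).1

theorem high_nodes {D : Dat} (hF : Tr D.F) {x y α β : Om} {m : ℕ} (hx : x ∈ D.F m α)
    (hy : y ∈ D.F m β) (hxy : x < y) (hαy : α < y)
    (hR : ∀ ξ, (ξ < x ∧ ξ ∈ D.F m x) ↔ (ξ < y ∧ ξ ∈ D.F m y)) (hE : E D m α β) :
    D.o1 x y = cd D m α β := by
  obtain ⟨n1, n2, n3⟩ := high hF hx hy hxy hαy hR
  obtain ⟨x', y', p, e⟩ := hE
  have h1 : x' = x := by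
    apply le_antisymm
    · exact not_lt.1 fun h => n3 (e.x_min x hx h)
    · exact not_lt.1 fun h => e.x_nmem (n2 x' e.x_mem h)
  have h2 : y' = y := by
    apply le_antisymm
    · exact not_lt.1 fun h => absurd (e.y_min y hy h) (not_le.2 hαy)
    · refine not_lt.1 fun h => ?_
      exact absurd (lt_of_lt_of_le (n1 y' e.y_mem h).1 (hF.le _ _ _ hx)) (lt_asymm e.y_gt)
  have := e.c1
  rw [h1, h2] at this
  exact this

/-- every uncountable set contains edges of almost all numbers -/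
theorem occ {D : Dat} (hF : Tr D.F) (hL : Ladder D.L) (hr : Function.Injective D.r)
    (h1 : Strong D.o1) (h2 : Strong D.o2) (h3 : Strong D.o3) {X : Set Om} (hX : ¬ X.Countable) :
    ∃ N : ℕ, ∀ n, N ≤ n → ∃ α ∈ X, ∃ β ∈ X, α < β ∧ E D n α β ∧ n ∉ range (lam D.r α) ∧
      n ∉ range (lam D.r β) ∧ ∀ m, m < n → ¬ E D m α β := by
  obtain ⟨nd, hnd⟩ := exists_nd hF
  choose J T b hb hbp using fun δ => many hF hL hnd hX δ
  -- separation of three points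
  have hsep : ∀ δ : Om, ∃ N : ℕ, ∀ n, N ≤ n → ∀ i i' : Fin 3, i ≠ i' →
      lam D.r (b δ i) n ≠ lam D.r (b δ i') n ∧
        ¬ (n ∈ range (lam D.r (b δ i)) ∧ n ∈ range (lam D.r (b δ i'))) := by
    intro δ
    have a1 : ∀ p : Fin 3 × Fin 3, ∃ N : ℕ, p.1 ≠ p.2 → ∀ n, N ≤ n →
        lam D.r (b δ p.1) n ≠ lam D.r (b δ p.2) n ∧
        ¬ (n ∈ range (lam D.r (b δ p.1)) ∧ n ∈ range (lam D.r (b δ p.2))) := by
      intro p
      by_cases hp : p.1 = p.2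
      · exact ⟨0, fun h => absurd hp h⟩
      · have a2 : b δ p.1 ≠ b δ p.2 := fun h => hp (Fin.ext (hb δ h))
        obtain ⟨N, hN⟩ := sep_names hr a2
        exact ⟨N, fun _ => hN⟩
    choose M hM using a1
    refine ⟨Finset.univ.sup M, ?_⟩
    intro n hn i i' hii
    exact hM (i, i') hii n (le_trans (Finset.le_sup (f := M) (Finset.mem_univ (i, i'))) hn)
  choose M hM using hsep
  -- a stationary set of ordinals with the same data
  have hst : IsStationary (Lm : Set Om) := IsClub.isStationary om_cof club_Lm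
  obtain ⟨⟨j, N⟩, hS0⟩ := stat_cover (ι := ℕ × ℕ)
    (F := fun p => {x | x ∈ Lm ∧ J x = p.1 ∧ M x = p.2}) hst (by
      intro x hx
      exact mem_iUnion.2 ⟨(J x, M x), hx, rfl, rfl⟩)
  have hS0' : IsStationary {x | x ∈ Lm ∧ J x = j ∧ M x = N} := hS0
  obtain ⟨t, hS1⟩ := fodor_fin hS0' (fun x hx => hx.1) T (by
    intro x hx
    have a1 := hbp x 0
    rw [← a1.2.2.2]
    exact ⟨Tp_fin hF hL hnd a1.2.1 _, fun p hp => hp.1⟩)
  refine ⟨max N j, ?_⟩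
  intro n hn
  have hNn : N ≤ n := le_trans (le_max_left _ _) hn
  have hjn : j ≤ n := le_trans (le_max_right _ _) hn
  -- two of the three points without the name `n`
  obtain ⟨⟨i, i'⟩, hS2⟩ := stat_cover (ι := Fin 3 × Fin 3)
    (F := fun p => {x | x ∈ {x | x ∈ {x | x ∈ Lm ∧ J x = j ∧ M x = N} ∧ T x = t} ∧ p.1 ≠ p.2 ∧
      n ∉ range (lam D.r (b x p.1)) ∧ n ∉ range (lam D.r (b x p.2))}) hS1 (by
      intro x hx
      have hMx : M x ≤ n := by rw [hx.1.2.2]; exact hNn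
      have a01 := (hM x n hMx 0 1 (by decide)).2
      have a02 := (hM x n hMx 0 2 (by decide)).2
      have a12 := (hM x n hMx 1 2 (by decide)).2
      by_cases c0 : n ∈ range (lam D.r (b x (0 : Fin 3)))
      · refine mem_iUnion.2 ⟨(1, 2), hx, by decide, fun h => a01 ⟨c0, h⟩, fun h => a02 ⟨c0, h⟩⟩
      · by_cases c1 : n ∈ range (lam D.r (b x (1 : Fin 3)))
        · exact mem_iUnion.2 ⟨(0, 2), hx, by decide, c0, fun h => a12 ⟨c1, h⟩⟩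
        · exact mem_iUnion.2 ⟨(0, 1), hx, by decide, c0, c1⟩)
  obtain ⟨⟨w, w'⟩, hS3⟩ := stat_cover (ι := ℕ × ℕ)
    (F := fun p => {x | (x ∈ {x | x ∈ {x | x ∈ Lm ∧ J x = j ∧ M x = N} ∧ T x = t} ∧ i ≠ i' ∧
      n ∉ range (lam D.r (b x i)) ∧ n ∉ range (lam D.r (b x i'))) ∧
      lam D.r (b x i) n = p.1 ∧ lam D.r (b x i') n = p.2}) hS2 (by
      intro x hx
      exact mem_iUnion.2 ⟨(lam D.r (b x i) n, lam D.r (b x i') n), hx, rfl, rfl⟩)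
  obtain ⟨S3, hS3def⟩ : ∃ S3 : Set Om, S3 = {x | (x ∈ {x | x ∈ {x | x ∈ Lm ∧ J x = j ∧ M x = N} ∧
      T x = t} ∧ i ≠ i' ∧ n ∉ range (lam D.r (b x i)) ∧ n ∉ range (lam D.r (b x i'))) ∧
      lam D.r (b x i) n = w ∧ lam D.r (b x i') n = w'} := ⟨_, rfl⟩
  have hS3' : IsStationary S3 := by rw [hS3def]; exact hS3
  have hS3m : ∀ x ∈ S3, x ∈ Lm ∧ J x = j ∧ M x = N ∧ T x = t ∧ i ≠ i' ∧
      n ∉ range (lam D.r (b x i)) ∧ n ∉ range (lam D.r (b x i')) ∧ lam D.r (b x i) n = w ∧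
      lam D.r (b x i') n = w' := by
    intro x hx
    rw [hS3def] at hx
    obtain ⟨⟨⟨⟨a1, a2, a3⟩, a4⟩, a5, a6, a7⟩, a8, a9⟩ := hx
    exact ⟨a1, a2, a3, a4, a5, a6, a7, a8, a9⟩
  obtain ⟨R, hS4⟩ := fodor_fin hS3' (fun x hx => (hS3m x hx).1)
    (fun x => {p | p.1 ≤ n ∧ p.2 ∈ D.F p.1 x ∧ p.2 < x}) (by
      intro x _
      constructor
      · apply Set.Finite.subset (s := ⋃ m ∈ Iic n, (fun ξ => (m, ξ)) '' D.F m x)
        · exact (Set.finite_Iic n).biUnion (fun m _ => (hF.fin m x).image _)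
        · rintro ⟨m, ξ⟩ ⟨a1, a2, _⟩
          exact mem_biUnion (show m ∈ Iic n from a1) ⟨ξ, a2, rfl⟩
      · intro p hp
        exact hp.2.2)
  obtain ⟨x, hx, y, hy, p, q, hW, hxy, hαy, c1, c2, c3⟩ := pair_exists hL h1 h2 h3 hS4
    (fun x hx => (hS3m x hx.1).1) (Nat.pair n (Nat.pair w w')) w' w (fun x => b x i)
  obtain ⟨hx1, hx2, hx3, hx4, hii, hx6, hx7, hx8, hx9⟩ := hS3m x hx.1
  obtain ⟨hy1, hy2, hy3, hy4, _, hy6, hy7, hy8, hy9⟩ := hS3m y hy.1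
  obtain ⟨bx1, bx2, bx3, bx4⟩ := hbp x i
  obtain ⟨by1, by2, by3, by4⟩ := hbp y i'
  rw [hx2] at bx3 bx4
  rw [hy2] at by3 by4
  have hα : b x i < b y i' := lt_trans hαy by2
  have hR : ∀ m, m ≤ n → ∀ ξ, (ξ < x ∧ ξ ∈ D.F m x) ↔ (ξ < y ∧ ξ ∈ D.F m y) := by
    intro m hm ξ
    have a1 : (m, ξ) ∈ {p : ℕ × Om | p.1 ≤ n ∧ p.2 ∈ D.F p.1 x ∧ p.2 < x} ↔
        (m, ξ) ∈ {p : ℕ × Om | p.1 ≤ n ∧ p.2 ∈ D.F p.1 y ∧ p.2 < y} := by
      rw [hx.2, hy.2]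
    constructor
    · rintro ⟨a2, a3⟩
      have a4 := a1.1 ⟨hm, a3, a2⟩
      exact ⟨a4.2.2, a4.2.1⟩
    · rintro ⟨a2, a3⟩
      have a4 := a1.2 ⟨hm, a3, a2⟩
      exact ⟨a4.2.2, a4.2.1⟩
  have hmem : ∀ m, j ≤ m → x ∈ D.F m (b x i) ∧ y ∈ D.F m (b y i') := by
    intro m hm
    constructor
    · rw [rk_le hF bx2.le, bx3]
      exact hm
    · rw [rk_le hF by2.le, by3]
      exact hm
  have hww : w ≠ w' := by
    rw [← hx8, ← hx9]
    exact (hM x n (by rw [hx3]; exact hNn) i i' hii).1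
  obtain ⟨hxα, hyβ⟩ := hmem n hjn
  obtain ⟨n1, n2, n3⟩ := high hF hxα hyβ hxy hαy (hR n le_rfl)
  have hEd : Ed D n (b x i) (b y i') x y p := by
    refine ⟨hα, ?_, ?_, ?_, hxα, n3, n2, hyβ, hαy, ?_, hx1, hy1, ⟨q, hW⟩, ?_, ?_, ?_⟩
    · intro ξ hξ hle
      exact (n1 ξ hξ (lt_of_le_of_lt hle hαy)).2
    · intro h
      exact absurd (n1 _ h hαy).1 (lt_asymm bx2)
    · rw [hx8, hy9]
      exact hww
    · intro ξ hξ hlt
      exact (lt_trans (n1 ξ hξ hlt).1 bx2).le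
    · rw [c1]
      unfold cd
      rw [hx8, hy9]
    · rw [c2, hy9]
    · rw [c3, hx8]
  refine ⟨b x i, bx1, b y i', by1, hα, ⟨x, y, p, hEd⟩, hx6, hy7, ?_⟩
  intro m hm
  rcases Nat.lt_or_ge m j with h | h
  · refine low hF hL hnd h bx2 hxy by2 hαy bx3 by3 ?_
    rw [bx4, by4, hx4, hy4]
  · intro hE
    have a1 := high_nodes hF (hmem m h).1 (hmem m h).2 hxy hαy (hR m hm.le) hE
    rw [hEd.c1] at a1
    have := cd_fst a1
    omega

end Pool.Agent.H.MP_670a4f_lc.Q
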