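import Pool.Agent.H.MP_670a4f_lc.St.Stat

/-!
# MP_670a4f_lc, Q/Tree: an increasing sequence of tree orders on the countable ordinals

`F k a` is the set of the predecessors of `a` (with `a`) in the `k`-th tree: finite sets, increasing
with `k`, with union the set of all ordinals up to `a`.
-/

set_option autoImplicit false

namespace Pool.Agent.H.MP_670a4f_lc.Q

open Set Pool.Agent.H.MP_670a4f_lc.St

/-- The properties of the sequence of trees. -/
structure Tr (F : ℕ → Om → Set Om) : Prop where
  self : ∀ k a, a ∈ F k a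
  le : ∀ k a x, x ∈ F k a → x ≤ a
  mono : ∀ k l a, k ≤ l → F k a ⊆ F l a
  fin : ∀ k a, (F k a).Finite
  ex : ∀ a x, x ≤ a → ∃ k, x ∈ F k a
  coh : ∀ k a x, x ∈ F k a → ∀ y, y ≤ x → (y ∈ F k x ↔ y ∈ F k a)

/-- the levels -/
noncomputable def Nq (s : ℕ → Om) (G : ℕ → ℕ → Set Om) : ℕ → ℕ
  | 0 => 0
  | n + 1 => max (max (Nq s G n) (n + 1)) (sInf {j | s n ∈ G (n + 1) j})

noncomputable def idx (s : ℕ → Om) (G : ℕ → ℕ → Set Om) (k : ℕ) : ℕ :=
  Nat.findGreatest (fun n => Nq s G n ≤ k) k

theorem le_Nq (s : ℕ → Om) (G : ℕ → ℕ → Set Om) (n : ℕ) : n ≤ Nq s G n := by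
  cases n with
  | zero => exact Nat.zero_le _
  | succ n => exact le_trans (le_max_right _ _) (le_max_left _ _)

theorem Nq_mono (s : ℕ → Om) (G : ℕ → ℕ → Set Om) : Monotone (Nq s G) :=
  monotone_nat_of_le_succ (fun n => le_trans (le_max_left _ _) (le_max_left _ _))

theorem idx_spec (s : ℕ → Om) (G : ℕ → ℕ → Set Om) (k : ℕ) : Nq s G (idx s G k) ≤ k :=
  Nat.findGreatest_spec (P := fun n => Nq s G n ≤ k) (Nat.zero_le k) (Nat.zero_le k)

theorem le_idx (s : ℕ → Om) (G : ℕ → ℕ → Set Om) {n k : ℕ} (h : Nq s G n ≤ k) : n ≤ idx s G k :=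
  Nat.le_findGreatest (le_trans (le_Nq s G n) h) h

theorem idx_mono (s : ℕ → Om) (G : ℕ → ℕ → Set Om) {k l : ℕ} (h : k ≤ l) :
    idx s G k ≤ idx s G l := le_idx s G (le_trans (idx_spec s G k) h)

/-- sequences cofinal below the ordinals -/
theorem exists_seq : ∃ s : Om → ℕ → Om, ∀ a : Om, (∃ b, b < a) →
    (∀ n, s a n < a) ∧ Monotone (s a) ∧ ∀ x, x < a → ∃ n, x ≤ s a n := by
  have h1 : ∀ a : Om, ∃ s : ℕ → Om, (∃ b, b < a) →
      (∀ n, s n < a) ∧ Monotone s ∧ ∀ x, x < a → ∃ n, x ≤ s n := by
    intro a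
    by_cases h : ∃ b, b < a
    · obtain ⟨a0, ha0⟩ := h
      obtain ⟨f, hf⟩ := (om_countable a).exists_eq_range ⟨a0, ha0⟩
      have hfx : ∀ n, f n < a := fun n => by
        have : f n ∈ Iio a := by rw [hf]; exact ⟨n, rfl⟩
        exact this
      let g : ℕ → Om := fun n => Nat.rec (f 0) (fun n b => max b (f (n + 1))) n
      have hg : ∀ n, g (n + 1) = max (g n) (f (n + 1)) := fun n => rfl
      have hfg : ∀ n, f n ≤ g n := by
        intro n
        cases n with
        | zero => exact le_rfl
        | succ n => rw [hg]; exact le_max_right _ _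
      refine ⟨g, fun _ => ⟨?_, ?_, ?_⟩⟩
      · intro n
        induction n with
        | zero => exact hfx 0
        | succ n ih => rw [hg]; exact max_lt ih (hfx _)
      · exact monotone_nat_of_le_succ (fun n => by rw [hg]; exact le_max_left _ _)
      · intro x hx
        have : x ∈ range f := by rw [← hf]; exact hx
        obtain ⟨n, rfl⟩ := this
        exact ⟨n, hfg n⟩
    · exact ⟨fun _ => a, fun h' => absurd h' h⟩
  choose s hs using h1
  exact ⟨s, hs⟩

/-- the recursion -/
noncomputable def Fr (s : Om → ℕ → Om) (hs : ∀ a : Om, (∃ b, b < a) → ∀ n, s a n < a) :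
    Om → ℕ → Set Om :=
  open Classical in
  WellFounded.fix (wellFounded_lt (α := Om)) (fun a IH k =>
    if h : ∃ b, b < a then
      insert a (IH (s a (idx (s a) (fun n => IH (s a n) (hs a h n)) k)) (hs a h _) k)
    else {a})

theorem Fr_pos (s : Om → ℕ → Om) (hs : ∀ a : Om, (∃ b, b < a) → ∀ n, s a n < a) {a : Om}
    (h : ∃ b, b < a) (k : ℕ) :
    Fr s hs a k = insert a (Fr s hs (s a (idx (s a) (fun n => Fr s hs (s a n)) k)) k) := by
  unfold Fr
  rw [WellFounded.fix_eq]
  rw [dif_pos h]

theorem Fr_neg (s : Om → ℕ → Om) (hs : ∀ a : Om, (∃ b, b < a) → ∀ n, s a n < a) {a : Om}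
    (h : ¬ ∃ b, b < a) (k : ℕ) : Fr s hs a k = {a} := by
  unfold Fr
  rw [WellFounded.fix_eq]
  rw [dif_neg h]

theorem exists_tree : ∃ F, Tr F := by
  obtain ⟨s, hs0⟩ := exists_seq
  have hs : ∀ a : Om, (∃ b, b < a) → ∀ n, s a n < a := fun a h n => (hs0 a h).1 n
  obtain ⟨F, hF⟩ : ∃ F, F = Fr s hs := ⟨_, rfl⟩
  have key : ∀ a : Om, (∀ k, a ∈ F a k) ∧ (∀ k x, x ∈ F a k → x ≤ a) ∧
      (∀ k l, k ≤ l → F a k ⊆ F a l) ∧ (∀ k, (F a k).Finite) ∧ (∀ x, x ≤ a → ∃ k, x ∈ F a k) ∧
      (∀ k x, x ∈ F a k → ∀ y, y ≤ x → (y ∈ F x k ↔ y ∈ F a k)) := by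
    intro a
    induction a using WellFoundedLT.induction with
    | ind a IH =>
      by_cases h : ∃ b, b < a
      · obtain ⟨hsa, hsm, hsc⟩ := hs0 a h
        obtain ⟨G, hG⟩ : ∃ G : ℕ → ℕ → Set Om, G = fun n => F (s a n) := ⟨_, rfl⟩
        have hFa : ∀ k, F a k = insert a (F (s a (idx (s a) G k)) k) := by
          intro k
          rw [hG, hF]
          exact Fr_pos s hs h k
        have K : ∀ j i k, i ≤ j → Nq (s a) G j ≤ k → s a i ∈ F (s a j) k := by
          intro j
          induction j with
          | zero =>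
            intro i k hi _
            rw [Nat.le_zero.1 hi]
            exact (IH _ (hsa 0)).1 k
          | succ j ih =>
            intro i k hi hk
            rcases Nat.lt_or_ge i (j + 1) with h1 | h1
            · have h2 := ih i k (by omega) (le_trans (Nq_mono (s a) G (Nat.le_succ j)) hk)
              obtain ⟨_, _, m3, _, m5, m6⟩ := IH _ (hsa (j + 1))
              have h3 : s a j ∈ F (s a (j + 1)) k := by
                have h4 : sInf {l | s a j ∈ G (j + 1) l} ≤ k := le_trans (le_max_right _ _) hk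
                have h5 : sInf {l | s a j ∈ G (j + 1) l} ∈ {l | s a j ∈ G (j + 1) l} := by
                  apply Nat.sInf_mem
                  obtain ⟨l, hl⟩ := m5 (s a j) (hsm (Nat.le_succ j))
                  exact ⟨l, by rw [hG]; exact hl⟩
                have h6 : s a j ∈ G (j + 1) (sInf {l | s a j ∈ G (j + 1) l}) := h5
                rw [hG] at h6 h4
                exact m3 _ _ h4 h6
              exact (m6 k _ h3 _ (hsm (by omega))).1 h2
            · have h2 : i = j + 1 := by omega
              rw [h2]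
              exact (IH _ (hsa (j + 1))).1 k
        refine ⟨?_, ?_, ?_, ?_, ?_, ?_⟩
        · intro k
          rw [hFa]
          exact mem_insert _ _
        · intro k x hx
          rw [hFa] at hx
          rcases hx with hx | hx
          · exact le_of_eq hx
          · exact le_trans ((IH _ (hsa _)).2.1 k x hx) (hsa _).le
        · intro k l hkl x hx
          rw [hFa] at hx
          rw [hFa]
          rcases hx with hx | hx
          · exact Or.inl hx
          · right
            have h1 := (IH _ (hsa _)).2.2.1 k l hkl hx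
            have h2 := K (idx (s a) G l) (idx (s a) G k) l (idx_mono (s a) G hkl)
              (idx_spec (s a) G l)
            exact ((IH _ (hsa _)).2.2.2.2.2 l _ h2 x ((IH _ (hsa _)).2.1 k x hx)).1 h1
        · intro k
          rw [hFa]
          exact ((IH _ (hsa _)).2.2.2.1 k).insert a
        · intro x hx
          rcases hx.lt_or_eq with hx | hx
          · obtain ⟨n, hn⟩ := hsc x hx
            obtain ⟨k0, hk0⟩ := (IH _ (hsa n)).2.2.2.2.1 x hn
            refine ⟨max k0 (Nq (s a) G n), ?_⟩
            rw [hFa]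
            right
            have h1 : n ≤ idx (s a) G (max k0 (Nq (s a) G n)) := le_idx _ _ (le_max_right _ _)
            have h2 := K _ n (max k0 (Nq (s a) G n)) h1 (idx_spec (s a) G _)
            have h3 := (IH _ (hsa n)).2.2.1 k0 (max k0 (Nq (s a) G n)) (le_max_left _ _) hk0
            exact ((IH _ (hsa _)).2.2.2.2.2 _ _ h2 x hn).1 h3
          · refine ⟨0, ?_⟩
            rw [hFa]
            exact Or.inl hx
        · intro k x hx y hy
          rw [hFa] at hx
          rcases hx with hx | hx
          · rw [hx]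
          · have h1 := (IH _ (hsa _)).2.2.2.2.2 k x hx y hy
            have h2 := (IH _ (hsa _)).2.1 k x hx
            rw [hFa, h1]
            constructor
            · exact fun h => Or.inr h
            · intro h'
              rcases h' with h' | h'
              · exact absurd (lt_of_le_of_lt (le_trans hy h2) (hsa _)) (by rw [h']; exact lt_irrefl _)
              · exact h'
      · have hFa : ∀ k, F a k = {a} := fun k => by rw [hF]; exact Fr_neg s hs h k
        refine ⟨?_, ?_, ?_, ?_, ?_, ?_⟩
        · intro k; rw [hFa]; rfl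
        · intro k x hx; rw [hFa] at hx; exact le_of_eq hx
        · intro k l _; rw [hFa, hFa]
        · intro k; rw [hFa]; exact finite_singleton a
        · intro x hx
          refine ⟨0, ?_⟩
          rw [hFa]
          rcases hx.lt_or_eq with hx | hx
          · exact absurd ⟨x, hx⟩ h
          · exact hx
        · intro k x hx y _
          rw [hFa] at hx
          have : x = a := hx
          rw [this]
  exact ⟨fun k a => F a k, ⟨fun k a => (key a).1 k, fun k a => (key a).2.1 k,
    fun k l a h => (key a).2.2.1 k l h, fun k a => (key a).2.2.2.1 k,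
    fun a => (key a).2.2.2.2.1, fun k a => (key a).2.2.2.2.2 k⟩⟩

end Pool.Agent.H.MP_670a4f_lc.Q
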