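import Pool.Agent.H.MP_670a4f_lc.Q.Graph

/-!
# MP_670a4f_lc, Q/Types: points of an uncountable set above an ordinal, with the same finite trace
-/

set_option autoImplicit false

namespace Pool.Agent.H.MP_670a4f_lc.Q

open Set Pool.Agent.H.MP_670a4f_lc.St

theorem countable_Iic (b : Om) : (Iic b).Countable := by
  have h2 : Iic b = insert b (Iio b) := by
    ext t
    simp only [Set.mem_Iic, Set.mem_insert_iff, Set.mem_Iio]
    exact le_iff_eq_or_lt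
  rw [h2]
  exact (om_countable b).insert b

/-- pressing down for maps into finite sets -/
theorem fodor_fin {S : Set Om} (hS : IsStationary S) (hSL : S ⊆ Lm) (f : Om → Set (ℕ × Om))
    (hf : ∀ x ∈ S, (f x).Finite ∧ ∀ p ∈ f x, p.2 < x) :
    ∃ t, IsStationary {x | x ∈ S ∧ f x = t} := by
  have h1 : ∀ x : Om, ∃ b : Om, x ∈ S → b < x ∧ ∀ p ∈ f x, p.2 ≤ b := by
    intro x
    by_cases hx : x ∈ S
    · rcases (f x).eq_empty_or_nonempty with he | hne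
      · obtain ⟨⟨a, ha⟩, _⟩ := hSL hx
        refine ⟨a, fun _ => ⟨ha, ?_⟩⟩
        intro p hp
        rw [he] at hp
        exact absurd hp (notMem_empty p)
      · obtain ⟨a, ha, hmax⟩ := Set.exists_max_image (f x) Prod.snd (hf x hx).1 hne
        exact ⟨a.2, fun _ => ⟨(hf x hx).2 a ha, hmax⟩⟩
    · exact ⟨x, fun h => absurd h hx⟩
  choose g hg using h1
  obtain ⟨b, hb⟩ := fodor hS g (fun x hx => (hg x hx).1)
  have hcB : {p : ℕ × Om | p.2 ≤ b}.Countable := by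
    apply (Set.countable_univ.prod (countable_Iic b)).mono
    intro p hp
    exact ⟨mem_univ _, hp⟩
  have hT : Countable {t : Set (ℕ × Om) | t.Finite ∧ t ⊆ {p : ℕ × Om | p.2 ≤ b}} :=
    (Set.countable_ofPred_finite_subset hcB).to_subtype
  obtain ⟨t, ht⟩ := stat_cover
    (ι := {t : Set (ℕ × Om) | t.Finite ∧ t ⊆ {p : ℕ × Om | p.2 ≤ b}})
    (F := fun t => {x | x ∈ S ∧ f x = t.1}) hb (by
      intro x hx
      refine mem_iUnion.2 ⟨⟨f x, (hf x hx.1).1, ?_⟩, hx.1, rfl⟩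
      intro p hp
      have := (hg x hx.1).2 p hp
      rw [hx.2] at this
      exact this)
  exact ⟨t.1, ht⟩

/-- an uncountable set has uncountably many points with the same finite set -/
theorem fiber_fin {Y : Set Om} (hY : ¬ Y.Countable) {B : Set (ℕ × Om)} (hB : B.Countable)
    (f : Om → Set (ℕ × Om)) (hf : ∀ y ∈ Y, (f y).Finite ∧ f y ⊆ B) :
    ∃ t, ¬ {y | y ∈ Y ∧ f y = t}.Countable := by
  by_contra hc
  push Not at hc
  apply hY
  have h1 : Y ⊆ ⋃ t ∈ {t : Set (ℕ × Om) | t.Finite ∧ t ⊆ B}, {y | y ∈ Y ∧ f y = t} := by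
    intro y hy
    exact mem_biUnion (show f y ∈ {t : Set (ℕ × Om) | t.Finite ∧ t ⊆ B} from hf y hy)
      ⟨hy, rfl⟩
  exact ((Set.countable_ofPred_finite_subset hB).biUnion (fun t _ => hc t)).mono h1

/-- the first level at which `δ` is a predecessor of `β` -/
noncomputable def rk (F : ℕ → Om → Set Om) (δ β : Om) : ℕ := sInf {k | δ ∈ F k β}

theorem rk_le {F : ℕ → Om → Set Om} (hF : Tr F) {δ β : Om} (h : δ ≤ β) {k : ℕ} :
    δ ∈ F k β ↔ rk F δ β ≤ k := by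
  constructor
  · intro hk
    exact Nat.sInf_le hk
  · intro hk
    have h1 : rk F δ β ∈ {k | δ ∈ F k β} := Nat.sInf_mem (hF.ex β δ h)
    exact hF.mono _ _ _ hk h1

/-- the first point of `F m β` above `δ` -/
def NdSpec (F : ℕ → Om → Set Om) (nd : ℕ → Om → Om → Om) : Prop :=
  ∀ m δ β, δ < β → nd m δ β ∈ F m β ∧ δ < nd m δ β ∧ ∀ ξ ∈ F m β, δ < ξ → nd m δ β ≤ ξ

theorem exists_nd {F : ℕ → Om → Set Om} (hF : Tr F) : ∃ nd, NdSpec F nd := by
  have h1 : ∀ (m : ℕ) (δ β : Om), ∃ z, δ < β → z ∈ F m β ∧ δ < z ∧ ∀ ξ ∈ F m β, δ < ξ → z ≤ ξ := by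
    intro m δ β
    by_cases h : δ < β
    · obtain ⟨z, hz, hmin⟩ := (wellFounded_lt (α := Om)).has_min {ξ | ξ ∈ F m β ∧ δ < ξ}
        ⟨β, hF.self m β, h⟩
      exact ⟨z, fun _ => ⟨hz.1, hz.2, fun ξ h1 h2 => not_lt.1 (hmin ξ ⟨h1, h2⟩)⟩⟩
    · exact ⟨β, fun h' => absurd h' h⟩
  choose nd hnd using h1
  exact ⟨nd, hnd⟩

theorem nd_eq {F : ℕ → Om → Set Om} {nd : ℕ → Om → Om → Om} (hnd : NdSpec F nd) {m : ℕ}
    {δ β z : Om} (h : δ < β) (h1 : z ∈ F m β) (h2 : δ < z) (h3 : ∀ ξ ∈ F m β, δ < ξ → z ≤ ξ) :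
    nd m δ β = z := by
  obtain ⟨a1, a2, a3⟩ := hnd m δ β h
  exact le_antisymm (a3 z h1 h2) (h3 _ a1 a2)

/-- the trace of `β` on `δ` below the level `j` -/
def Tp (F : ℕ → Om → Set Om) (L : Om → ℕ → Om) (nd : ℕ → Om → Om → Om) (δ β : Om) (j : ℕ) :
    Set (ℕ × Om) :=
  {p | p.2 < δ ∧ ∃ m < j, (p.1 = 2 * m ∧ p.2 ∈ F m β) ∨
    (p.1 = 2 * m + 1 ∧ nd m δ β ∈ Lm ∧ ∃ i, p.2 = L (nd m δ β) i)}

theorem Tp_even {F : ℕ → Om → Set Om} {L : Om → ℕ → Om} {nd : ℕ → Om → Om → Om} {δ β : Om}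
    {j m : ℕ} (hm : m < j) (ξ : Om) : (2 * m, ξ) ∈ Tp F L nd δ β j ↔ ξ < δ ∧ ξ ∈ F m β := by
  constructor
  · rintro ⟨h1, m', _, h | h⟩
    · have h2 : 2 * m = 2 * m' := h.1
      have h3 : m = m' := by omega
      rw [h3]
      exact ⟨h1, h.2⟩
    · have h2 : 2 * m = 2 * m' + 1 := h.1
      omega
  · rintro ⟨h1, h2⟩
    exact ⟨h1, m, hm, Or.inl ⟨rfl, h2⟩⟩

theorem Tp_odd {F : ℕ → Om → Set Om} {L : Om → ℕ → Om} {nd : ℕ → Om → Om → Om} {δ β : Om}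
    {j m : ℕ} (hm : m < j) (ξ : Om) : (2 * m + 1, ξ) ∈ Tp F L nd δ β j ↔
      ξ < δ ∧ nd m δ β ∈ Lm ∧ ∃ i, ξ = L (nd m δ β) i := by
  constructor
  · rintro ⟨h1, m', _, h | h⟩
    · have h2 : 2 * m + 1 = 2 * m' := h.1
      omega
    · have h2 : 2 * m + 1 = 2 * m' + 1 := h.1
      have h3 : m = m' := by omega
      rw [h3]
      exact ⟨h1, h.2⟩
  · rintro ⟨h1, h2⟩
    exact ⟨h1, m, hm, Or.inr ⟨rfl, h2⟩⟩

theorem Tp_fin {F : ℕ → Om → Set Om} {L : Om → ℕ → Om} {nd : ℕ → Om → Om → Om} (hF : Tr F)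
    (hL : Ladder L) (hnd : NdSpec F nd) {δ β : Om} (h : δ < β) (j : ℕ) :
    (Tp F L nd δ β j).Finite := by
  have h1 : ∀ m : ℕ, ∃ i0 : ℕ, nd m δ β ∈ Lm → δ < L (nd m δ β) i0 := by
    intro m
    by_cases hz : nd m δ β ∈ Lm
    · obtain ⟨i, hi⟩ := hL.cof _ hz δ (hnd m δ β h).2.1
      exact ⟨i, fun _ => hi⟩
    · exact ⟨0, fun h' => absurd h' hz⟩
  choose i0 hi0 using h1
  apply Set.Finite.subset (s := ⋃ m ∈ Iio j, (((fun ξ => (2 * m, ξ)) '' F m β) ∪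
    ((fun i => (2 * m + 1, L (nd m δ β) i)) '' Iio (i0 m))))
  · exact (Set.finite_Iio j).biUnion (fun m _ =>
      ((hF.fin m β).image _).union ((Set.finite_Iio (i0 m)).image _))
  · rintro ⟨k, ξ⟩ ⟨h1, m, hm, h2 | h2⟩
    · refine mem_biUnion (show m ∈ Iio j from hm) (Or.inl ⟨ξ, h2.2, ?_⟩)
      have h3 : k = 2 * m := h2.1
      rw [h3]
    · obtain ⟨h3, h4, i, h5⟩ := h2
      have h3' : k = 2 * m + 1 := h3
      have h5' : ξ = L (nd m δ β) i := h5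
      have h1' : ξ < δ := h1
      refine mem_biUnion (show m ∈ Iio j from hm) (Or.inr ⟨i, ?_, ?_⟩)
      · by_contra hc
        have h6 : i0 m ≤ i := not_lt.1 hc
        have h7 := (hL.mono _ h4).monotone h6
        rw [← h5'] at h7
        exact absurd (lt_of_lt_of_le (hi0 m h4) h7) (lt_asymm h1')
      · rw [h3', h5']

/-- infinitely many points of an uncountable set with the same trace -/
theorem many {F : ℕ → Om → Set Om} {L : Om → ℕ → Om} {nd : ℕ → Om → Om → Om} (hF : Tr F)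
    (hL : Ladder L) (hnd : NdSpec F nd) {X : Set Om} (hX : ¬ X.Countable) (δ : Om) :
    ∃ (j : ℕ) (t : Set (ℕ × Om)) (b : ℕ → Om), Function.Injective b ∧
      ∀ i, b i ∈ X ∧ δ < b i ∧ rk F δ (b i) = j ∧ Tp F L nd δ (b i) j = t := by
  have h1 : ∃ j, ¬ {β | β ∈ X ∧ δ < β ∧ rk F δ β = j}.Countable := by
    by_contra hc
    push Not at hc
    apply hX
    apply ((Set.countable_iUnion hc).union (countable_Iic δ)).mono
    intro β hβ
    rcases lt_or_ge δ β with h | h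
    · exact Or.inl (mem_iUnion.2 ⟨rk F δ β, hβ, h, rfl⟩)
    · exact Or.inr h
  obtain ⟨j, hj⟩ := h1
  have hcB : {p : ℕ × Om | p.2 < δ}.Countable := by
    apply ((Set.countable_univ (α := ℕ)).prod (om_countable δ)).mono
    intro p hp
    exact ⟨mem_univ _, hp⟩
  obtain ⟨t, ht⟩ := fiber_fin hj (B := {p : ℕ × Om | p.2 < δ}) hcB
    (fun β => Tp F L nd δ β j) (fun β hβ => ⟨Tp_fin hF hL hnd hβ.2.1 j, fun p hp => hp.1⟩)
  have hinf : {β | β ∈ {β | β ∈ X ∧ δ < β ∧ rk F δ β = j} ∧ Tp F L nd δ β j = t}.Infinite :=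
    fun hf => ht hf.countable
  obtain ⟨e, he⟩ : ∃ e : ℕ ↪ {β | β ∈ {β | β ∈ X ∧ δ < β ∧ rk F δ β = j} ∧
    Tp F L nd δ β j = t}, e = Set.Infinite.natEmbedding _ hinf := ⟨_, rfl⟩
  refine ⟨j, t, fun i => (e i).1, ?_, ?_⟩
  · intro a b hab
    exact e.injective (Subtype.ext hab)
  · intro i
    obtain ⟨⟨h1, h2, h3⟩, h4⟩ := (e i).2
    exact ⟨h1, h2, h3, h4⟩

/-- two points are separated by their names at almost all levels -/
theorem sep_names {r : Om → ℕ → Bool} (hr : Function.Injective r) {x y : Om} (hxy : x ≠ y) :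
    ∃ N : ℕ, ∀ n, N ≤ n → lam r x n ≠ lam r y n ∧
      ¬ (n ∈ range (lam r x) ∧ n ∈ range (lam r y)) := by
  have h1 := lam_ad r hr hxy
  have h2 : {n | lam r x n = lam r y n}.Finite := by
    apply (h1.preimage (lam_inj r x).injOn).subset
    intro n hn
    exact ⟨⟨n, rfl⟩, ⟨n, (show lam r x n = lam r y n from hn).symm⟩⟩
  obtain ⟨N, hN⟩ := (h1.union h2).bddAbove
  refine ⟨N + 1, ?_⟩
  intro n hn
  constructor
  · intro h
    have := hN (Or.inr (show n ∈ {n | lam r x n = lam r y n} from h))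
    omega
  · intro h
    have := hN (Or.inl (show n ∈ {n | n ∈ range (lam r x) ∧ n ∈ range (lam r y)} from h))
    omega

end Pool.Agent.H.MP_670a4f_lc.Q
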